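import Mathlib

namespace Pool.Agent.Results.MP_903317_co.Vega

open SimpleGraph

/-- Membership in `F(k, 2)`: `k`-regular, not bipartite, diameter 2, girth 4. -/
def InF {V : Type} (k : ℕ) (G : SimpleGraph V) : Prop :=
  (∀ v, (G.neighborSet v).ncard = k) ∧ ¬ G.Colorable 2 ∧ G.ediam = 2 ∧ G.egirth = 4

/-- The graph `G_k(p, q)` on `ZMod ((3p-1)q)`. -/
def Gk (p q : ℕ) : SimpleGraph (ZMod ((3 * p - 1) * q)) :=
  SimpleGraph.fromRel fun i j =>
    ∃ n < p, ((i.val : ℤ) - j.val) ≡ 1 + 3 * (n : ℕ) [ZMOD (3 * (p : ℤ) - 1)]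

def cls : Fin 32 → Fin 12 :=
  ![0, 1, 1, 1, 2, 2, 2, 3, 4, 4, 4, 5, 5, 6, 6, 6, 6, 7, 7, 7, 8, 8, 8, 9, 9, 9, 10, 10, 10, 10,
    11, 11]

def E : List (Fin 12 × Fin 12) :=
  [(0, 2), (0, 3), (0, 6), (0, 9), (1, 3), (1, 4), (1, 6), (1, 9), (2, 4), (2, 7), (2, 10),
   (3, 7), (3, 10), (4, 8), (4, 11), (5, 6), (5, 8), (5, 10), (6, 7), (6, 11), (7, 8), (8, 9),
   (9, 10), (10, 11)]

def B : SimpleGraph (Fin 12) := SimpleGraph.fromRel (fun a b => (a, b) ∈ E)

instance : DecidableRel B.Adj := fun a b =>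
  decidable_of_iff (a ≠ b ∧ ((a, b) ∈ E ∨ (b, a) ∈ E)) (by simp [B, fromRel_adj])

def W : SimpleGraph (Fin 32) := B.comap cls

instance : DecidableRel W.Adj := fun a b => inferInstanceAs (Decidable (B.Adj (cls a) (cls b)))

lemma reg : ∀ v, W.degree v = 11 := by decide +kernel

lemma reg' (v : Fin 32) : (W.neighborSet v).ncard = 11 := by
  rw [← reg v, Set.ncard_eq_toFinset_card']
  rfl

lemma tri : ∀ a b, B.Adj a b → ∀ c, B.Adj a c → ¬ B.Adj b c := by decide +kernel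

lemma two : ∀ a b, B.Adj a b ∨ ∃ c : Fin 32, B.Adj a (cls c) ∧ B.Adj (cls c) b := by
  decide +kernel

lemma col : ¬ W.Colorable 2 := by
  rintro ⟨c⟩
  have h1 := c.valid (show W.Adj 0 4 by decide)
  have h2 := c.valid (show W.Adj 4 8 by decide)
  have h3 := c.valid (show W.Adj 8 1 by decide)
  have h4 := c.valid (show W.Adj 1 7 by decide)
  have h5 := c.valid (show W.Adj 7 0 by decide)
  omega

lemma diam : W.ediam = 2 := by
  apply le_antisymm
  · refine ediam_le_iff.2 fun u v => ?_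
    rcases two (cls u) (cls v) with h | ⟨c, h1, h2⟩
    · exact (edist_eq_one_iff_adj.2 (show W.Adj u v from h)).le.trans (by norm_num)
    · exact edist_le (Walk.cons (show W.Adj u c from h1) (Walk.cons (show W.Adj c v from h2) .nil))
  · by_contra h
    have h1 : W.ediam ≤ 1 := Order.le_of_lt_succ (not_le.1 h)
    have h2 := edist_le_one_iff_adj_or_eq.1 ((edist_le_ediam (G := W) (u := 0) (v := 1)).trans h1)
    revert h2
    decide

lemma girth : W.egirth = 4 := by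
  apply le_antisymm
  · let w : W.Walk 0 0 := .cons (show W.Adj 0 4 by decide) (.cons (show W.Adj 4 17 by decide)
      (.cons (show W.Adj 17 7 by decide) (.cons (show W.Adj 7 0 by decide) .nil)))
    have hw : w.IsCycle := by
      simp [w, Walk.isCycle_def, Walk.isTrail_def]
    exact egirth_le_length hw
  · refine le_egirth.2 fun a w hw => ?_
    have h3 := hw.three_le_length
    have : w.length ≠ 3 := by
      intro h
      obtain ⟨s, hs⟩ := is3Clique_iff_exists_cycle_length_three.2 ⟨a, w, hw, h⟩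
      obtain ⟨x, y, z, h1, h2, h3, -⟩ := is3Clique_iff.1 hs
      exact tri _ _ h1 _ h2 h3
    exact_mod_cast (by omega : 4 ≤ w.length)

instance : DecidableRel (Gk 11 1).Adj := fun a b =>
  decidable_of_iff (a ≠ b ∧ ((∃ n < 11, ((a.val : ℤ) - b.val) ≡ 1 + 3 * (n : ℕ) [ZMOD 32]) ∨
    (∃ n < 11, ((b.val : ℤ) - a.val) ≡ 1 + 3 * (n : ℕ) [ZMOD 32]))) (by simp [Gk, fromRel_adj])

lemma twinfree : ∀ a b : ZMod ((3 * 11 - 1) * 1), a ≠ b →
    ∃ c, ¬ ((Gk 11 1).Adj a c ↔ (Gk 11 1).Adj b c) := by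
  decide +kernel

lemma noniso : IsEmpty (W ≃g Gk 11 1) := by
  refine ⟨fun f => ?_⟩
  obtain ⟨c, hc⟩ := twinfree (f 1) (f 2) (fun h => absurd (f.injective h) (by decide))
  obtain ⟨d, rfl⟩ := f.surjective c
  apply hc
  rw [f.map_adj_iff, f.map_adj_iff]
  exact Iff.rfl

theorem result : ∃ k : ℕ, 2 ≤ k ∧ 5 ≤ k.minFac ∧
    ∃ G : SimpleGraph (Fin (3 * k - k / k.minFac)), InF k G ∧
      IsEmpty (G ≃g Gk k.minFac (k / k.minFac)) := by
  have h : Nat.minFac 11 = 11 := by norm_num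
  refine ⟨11, by norm_num, by rw [h]; norm_num, ?_⟩
  rw [h]
  exact ⟨W, ⟨reg', col, diam, girth⟩, noniso⟩

end Pool.Agent.Results.MP_903317_co.Vega
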